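import Mathlib
import Pool.Agent.J4H9.HSMain

/-!
# The numerical Hodge standard conjecture for almost all abelian varieties over a finite field

Let `q = p ^ a` be a power of a prime number and `ν` a symmetric Newton polygon whose first `g`
slopes are `lam 0 ≤ lam 1 ≤ ⋯ ≤ lam (g - 1)`, `0 ≤ lam i ≤ 1 / 2`. The set `newtonAbove p a lam g`
consists of the Weil polynomials of degree `2 g` over the field with `q` elements whose Newton
polygon is not below `ν` (the closed stratum), and the set `newtonThrough p a lam g E` of those
members whose Newton polygon meets `ν` over all points of a finite set `E` of integers from one to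
`g` (if `E` contains the vertices of `ν`, the set of all Weil polynomials with the Newton polygon
`ν`). Assume that the height of `ν` over `g` is at most `(1 / 2 - μ) g`. Let `S` be a subset of
`newtonAbove p a lam g` with at least `1 / D` times as many elements as `newtonThrough p a lam g E`.

We show that, with at most `m ^ 2 D 2 ^ #E 8 ^ g q ^ (- (μ / 4 - ε) g)` times the number of all tuples
as exceptions, the tuples `(f 1, …, f m)` of elements of `S` have the following property
`NumericalHodgeStandard`. Let `A` be an abelian variety over an algebraic closure of the field with
`q` elements (or over a larger field) which is isogenous to a product of arbitrary powers of abelian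
varieties over the field with `q` elements with the characteristic polynomials of Frobenius `f i`.
Then

* there are no exotic classes modulo numerical equivalence (`NoExotic`): each cycle is numerically
  equivalent to a rational linear combination of intersections of divisors;
* the numerical Hodge standard conjecture is true for `A` (`HodgeStandard`): the pairing
  `(-1) ^ n α β L ^ (d - 2 n)` is positive definite on the primitive classes of codimension `n` modulo
  numerical equivalence, `2 n ≤ d = dim A`, for every `L` for which this is true for the products of
  divisors. By the theorem of Milne (which is listed as known in the problem) these are all ample `L`.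

The bound is uniform in `q`, in the Newton polygon and in the dimension. So if `q > 2 ^ (12 / μ)` is
fixed and `g` tends to infinity, then the proportion of the exceptional tuples in the stratum tends
to zero exponentially: the conjecture is true for all powers of almost all abelian varieties in the
stratum. The case of the slopes `lam i = 0` is the case of all abelian varieties over the field with
`q` elements. The dimension of `A` is at least `g`, so that all dimensions and all codimensions occur.

`CycleClasses` contains the properties of the classes of cycles which are used: they are products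
and eigenvectors of powers of Frobenius, intersection numbers are rational, and the theorem of Tate
for divisors.

The counting part is that of `MP_021685_ag/NewtonStrata`. It shows that the Tate classes are linear
combinations, over the algebraic closure of `ℚ_ℓ`, of products of classes of divisors; the
remaining part is the descent to rational classes modulo numerical equivalence.
-/

set_option autoImplicit false

namespace Pool.Agent.Results.MP_c0b458_ag.AlmostAllIsogenyClasses

open Polynomial Pool.Agent.J4H9.NGauss Pool.Agent.J4H9.NStm Pool.Agent.J4H9.HS

theorem result (μ ε : ℝ) (hμ : 0 < μ) (hμ1 : μ ≤ 1 / 2) (hε : 0 < ε) (hε1 : ε < μ / 4) :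
    ∃ g₀ : ℕ, ∀ g : ℕ, g₀ ≤ g → ∀ p a : ℕ, p.Prime → 0 < a → ∀ lam : ℕ → ℝ, Slopes lam →
      ∑ i ∈ Finset.range g, lam i ≤ (1 / 2 - μ) * g →
      ∀ E : Finset ℕ, (∀ j ∈ E, 0 < j ∧ j ≤ g ∧
        ∃ n : ℕ, (a : ℝ) * ∑ i ∈ Finset.range j, lam i = n) →
      ((newtonAbove p a lam g).Finite ∧
        (64 ≤ ((p ^ a : ℕ) : ℝ) ^ (μ / 2) → 0 < (newtonThrough p a lam g E).ncard)) ∧
      ∀ (S : Set ℤ[X]) (D : ℝ), S ⊆ newtonAbove p a lam g → 1 ≤ D →
        ((newtonThrough p a lam g E).ncard : ℝ) ≤ D * S.ncard → ∀ m : ℕ,
        ({f : Fin m → ℤ[X] | (∀ i, f i ∈ S) ∧ ¬ NumericalHodgeStandard (p ^ a) f}.ncard : ℝ) ≤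
          (m : ℝ) ^ 2 * D * 2 ^ E.card * 8 ^ g *
            ((p ^ a : ℕ) : ℝ) ^ (-((μ / 4 - ε) * g)) * (S.ncard : ℝ) ^ m :=
  hs_main hμ hμ1 hε hε1

end Pool.Agent.Results.MP_c0b458_ag.AlmostAllIsogenyClasses
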