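import Pool.Agent.J4H48.M4.Final

/-!
# The number of negative squares in the standard conjecture of Hodge type for abelian varieties is
divisible by four

The standard conjecture of Hodge type for abelian varieties reduces to abelian varieties over an
algebraic closure of the field with `p` elements. We consider all of them, with all polarizations (up to
isogeny), and all codimensions, and we prove that the number of negative squares of the pairing
`(-1) ^ r z ∪ w ∪ E ^ m` on the primitive classes of algebraic cycles of codimension `r` modulo
numerical equivalence is divisible by four. The same is true for each rational subspace which is stable
under the unitary elements of the algebra of the complex multiplications, for example for each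
isotypic component. So the conjecture can only fail with at least four negative squares: it holds for
a stable space of primitive classes if there are not four pairwise orthogonal negative classes in it; for
example if its dimension modulo numerical equivalence is at most `3 + k` and it contains `k`
pairwise orthogonal positive classes (classes which lift to characteristic zero are positive). For
dimension two and `k = 0` this is the theorem of Ancona which proves the conjecture for abelian
fourfolds.

**The model** (that of `Pool.Agent.W495.TA`, `Pool.Agent.TH117.PO` and `Pool.Agent.N202.QR`). By Honda
and Tate an abelian variety over an algebraic closure of the field with `p` elements is, up to isogeny,
a reduction `Y` of an abelian variety `X` of CM type: `RedAV p ν`, with a place `ν` of `ℂ` above `p`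
and the Frobenius endomorphism described by the formula of Shimura and Taniyama. Its cohomology with
coefficients in `Ω` consists of the alternating forms on `Ω ⊗ H_1(X, ℚ)`; a class of codimension `r`
has the variables `Fin r × Fin 2`. The polarization is given by `α`: `IsPolar Y.X α`. By Honda, Tate
and Zink each polarized abelian variety is isogenous to such a `Y` with such an `α`. The dimension is
`2 r + m`.

**Compatible systems** (`IsCompatible Ω C`). Here `Ω l` is an algebraically closed field containing
the field of `l`-adic numbers, for all prime numbers `l`; for `l = p` think of a field which
contains the ring of p-adic periods. `C Y κ` is the set of the families `(z l)` of the classes of
the algebraic cycles of `Y` in all these cohomology theories (l-adic for `l ≠ p`, crystalline for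
`l = p`, compared with the cohomology of `X`), and `atPrime C l` is the system of the classes in the
theory with the index `l`. The assumed properties:

* the formal ones (sums, cup products, pull-backs, push-forwards along projections of liftings,
  rational degrees which do not depend on `l`), the algebraicity of the Hodge classes of degree two
  and of the split Weil classes in the dimensions four and six, and the theorem of Tate for
  divisors (`IsFam`, and `IsCycleSystem` of `Pool.Agent.TH117.PO` for each `l`);
* `mixed`: the intersection number of the class of a cycle and of a rational Hodge class of the
  lifting `X`, of complementary degrees, is in the field of `l`-adic numbers. For `l ≠ p` this is
  clear, since the Hodge class is rational; for `l = p` it is the theorem (Deligne, Ogus, Blasius,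
  Wintenberger) that Hodge classes on abelian varieties with good reduction are crystalline: both
  classes are fixed by the crystalline Frobenius, hence so is their intersection number.

`IsRosatiPositive` is the positivity of the Rosati involution (Weil) and `AreTate` says that
the classes of cycles are Tate classes. So all assumptions are theorems for the system of the
classes of all algebraic cycles.

**The statement.** `IndexTheorem C Y`: for all polarizations `α`, all codimensions `r`, and all
`S` with `IsStableSpace C α m S` (a rational subspace of the space of the primitive classes in `C`,
stable under the pull-backs along the unitary elements; all primitive classes form one) the
following hold. `FourDvdIndex α m S`: there is a largest number `n` with `HasNegative α m S n` (there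
are `n` pairwise orthogonal classes in `S` with negative square), and it is divisible by four.
`PositivityCriteria C α m S`: `IsPosDef C α m S` (each class in `S` which is not numerically
equivalent to zero has positive square) holds if `HasNegative α m S 4` does not hold, and it holds if
`HasPositive α m S k` (there are `k` pairwise orthogonal classes in `S` with positive square) and
`HasDimLT C S (k + 4)` (the dimension of `S` modulo numerical equivalence is less than `k + 4`), for
some `k`. (All this is in `Pool.Agent.J4H48.M4.Stm`.)

**The proof.** The products of conjugate coefficients of the classes in a basis of eigenvectors of
the complex multiplications lie in a CM field `L`, and the pairing is the sum of these products,
divided by coefficients of the polarization, over all the monomials. For each monomial `s` which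
occurs, the multiset of the CM types of the factors is decomposed into half systems; so there is a monomial
`J` on another abelian variety with complex multiplication, of Hodge type, such that `J` and the
complex conjugate of `s` together form a product of pairs, in such a way that the unitary character of `s`
determines `J`. The comparison of the classes of cycles with the rational Hodge classes of the lifting
(by `mixed`, at each prime number, including `p`) yields a real element `y` of the field of definition
of the character of `s`, such that the signs of the conjugates of `s` are the signs of the conjugates of
`y`, and such that `y` is a norm, from the field of the character, of an element at each prime number. By
interpolation of the characters of the unitary group the elements `y` define one operator on the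
classes, such that the pairing twisted by `y` is positive definite, and is isometric to the pairing,
modulo the radicals, over the field of `l`-adic numbers for each `l`. So the pairing has the dimension,
the discriminant and the Hasse invariants of a positive definite form, and by the product formula for
the Hilbert symbols its number of negative squares is divisible by four.
-/

namespace Pool.Agent.Results.MP_c0b458_ag.IndexDivisibleByFour

open NumberField Module
open Pool.Agent.W495.TA Pool.Agent.TH117.PO Pool.Agent.N202.QR Pool.Agent.J4H48.M4

/-- **The number of negative squares is divisible by four**, for all abelian varieties `Y`, all
polarizations, and each stable space of primitive classes of cycles of codimension `r`, for example for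
the space of all primitive classes; and the criteria for the positivity which follow. -/
theorem result {p : ℕ} [Fact p.Prime] {ν : PadicAlgCl p ≃+* ℂ} {Ω : Nat.Primes → Type}
    [∀ l, Field (Ω l)] [∀ l, CharZero (Ω l)] [∀ l : Nat.Primes, Algebra ℚ_[(l : ℕ)] (Ω l)]
    [∀ l, IsAlgClosed (Ω l)] {C : (Y : RedAV p ν) → (κ : Type) → FCl Ω Y κ → Prop}
    (hC : IsCompatible Ω C) (l : Nat.Primes) (hR : IsRosatiPositive (Ω l) (atPrime C l))
    (hT : AreTate (Ω l) (atPrime C l)) (Y : RedAV p ν) : IndexTheorem (atPrime C l) Y :=
  index_theorem hC l hR hT Y

end Pool.Agent.Results.MP_c0b458_ag.IndexDivisibleByFour
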