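import Mathlib
import Pool.Agent.J4H9.HTMain

/-!
# The numerical Hodge standard conjecture for products of almost all abelian varieties with
arbitrary varieties of small degree

Let `q = p ^ a` be a power of a prime number, and let `S` be a set of Weil polynomials of degree `2 g`
whose Newton polygons are not below a given symmetric polygon with slopes
`lam 0 ≤ lam 1 ≤ ⋯ ≤ lam (g - 1) ≤ 1 / 2` and height at most `(1 / 2 - μ) g`, such that `S` has at least
`1 / D` times as many elements as `newtonThrough p a lam g E` (see MP_021685_ag/NewtonStrata). Then the
number of the tuples `(f 1, …, f m)` of elements of `S` for which the statement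
`HodgeForSmallDegree q b (f 1, …, f m)`, `b = ⌊κ g⌋`, is not true is at most
`m ^ 2 D 2 ^ #E 8 ^ g q ^ (- (μ (1 - κ) / 2 - ε) g)` times the number of all tuples. So if
`q > 16 ^ (2 / (μ (1 - κ)))` is fixed and `g` tends to infinity, the statement is true for almost all
tuples, in every Newton stratum of height at most `(1 / 2 - μ) g`.

`HodgeForSmallDegree q b (f 1, …, f m)` is the following statement. Let `A` be any abelian variety over
a finite extension of the field with `q` elements which is isogenous to a product of powers of
abelian varieties with characteristic polynomials of Frobenius `f i` over the field with `q` elements,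
and let `Y` be **any** smooth projective variety over this extension, such that the Frobenius
eigenvalues on the cohomology of `Y` have powers in the field generated by all algebraic numbers of
degree at most `b`; for example any abelian variety of dimension at most `b / 2`, or any variety all
of whose Betti numbers are at most `b`. Both are polarized and satisfy the hard Lefschetz
theorem and the Lefschetz standard conjecture (theorems for abelian varieties), and homological and
numerical equivalence coincide on `Y` (for an abelian variety this is true by Clozel for infinitely
many `l`). Then homological and numerical equivalence coincide on `A` and on `A × Y`, and **the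
numerical Hodge standard conjecture holds for `A × Y` if and only if it holds for `A` and for `Y`.**
For `A` all cycles are products of divisors up to numerical equivalence, and the conjecture holds
(MP_c0b458_ag/AlmostAllIsogenyClasses with the theorem of Milne). On `Y` there may be exotic classes: so
for example for all abelian varieties `B` of dimension at most four (Ancona) with exotic classes one gets
the conjecture for all `A × B`.

The cohomology is any Weil cohomology (`WeilCohomology`) on a class of varieties closed under products,
with algebraically closed coefficients. What is used of `A` is listed in `IsAbelianFrobenius`: the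
cohomology is generated by `H ^ 1`, which is spanned by eigenvectors of Frobenius with eigenvalues `z ^ s`,
`z` a root of some `f i`, and the theorem of Tate on divisors.

The idea of the proof. For the tuples outside the exceptional set the Galois group of the polynomials
contains elements of prime order `r > b`, `r > g / 2`, which permute `r` pairs of roots of one `f i`
cyclically and fix the other roots (MP_021685_ag/NewtonStrata). They fix all numbers of degree at most
`b`. So a product of roots, no two of them with product `q`, is never the inverse of an eigenvalue on
the cohomology of `Y` up to powers of `q` and roots of unity, and the cycles on `A × Y` are combinations of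
products of divisors on `A` and of classes on `Y`. The deduction of the conjecture from this splitting
is the one of the starting files `Pool.Agent.W484.HS`.
-/

set_option autoImplicit false

universe u v

namespace Pool.Agent.Results.MP_c0b458_ag.ProductsWithSmallDegree

open Polynomial Pool.Agent.J4H9.NGauss Pool.Agent.J4H9.NStm Pool.Agent.J4H9.HTMain
  Pool.Agent.J4H9.HTDefs

theorem result {κ μ ε : ℝ} (hκ : 1 / 2 ≤ κ) (hκ1 : κ < 1) (hμ : 0 < μ) (hμ1 : μ ≤ 1 / 2)
    (hε : 0 < ε) (hε1 : ε < μ * (1 - κ) / 2) :
    ∃ g₀ : ℕ, ∀ g : ℕ, g₀ ≤ g → ∀ p a : ℕ, p.Prime → 0 < a → ∀ lam : ℕ → ℝ, Slopes lam →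
      ∑ i ∈ Finset.range g, lam i ≤ (1 / 2 - μ) * g →
      ∀ E : Finset ℕ, (∀ j ∈ E, 0 < j ∧ j ≤ g ∧
        ∃ n : ℕ, (a : ℝ) * ∑ i ∈ Finset.range j, lam i = n) →
      ((newtonAbove p a lam g).Finite ∧
        (64 ≤ ((p ^ a : ℕ) : ℝ) ^ (μ / 2) → 0 < (newtonThrough p a lam g E).ncard)) ∧
      ∀ (S : Set ℤ[X]) (D : ℝ), S ⊆ newtonAbove p a lam g → 1 ≤ D →
        ((newtonThrough p a lam g E).ncard : ℝ) ≤ D * S.ncard → ∀ m : ℕ,
        ({f : Fin m → ℤ[X] | (∀ i, f i ∈ S) ∧
            ¬ HodgeForSmallDegree.{u, v} (p ^ a) ⌊κ * g⌋₊ f}.ncard : ℝ) ≤
          (m : ℝ) ^ 2 * D * 2 ^ E.card * 8 ^ g *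
            ((p ^ a : ℕ) : ℝ) ^ (-((μ * (1 - κ) / 2 - ε) * g)) * (S.ncard : ℝ) ^ m :=
  main_pred hκ hκ1 hμ hμ1 hε hε1 (fun q b _ f => HodgeForSmallDegree.{u, v} q b f)
    fun _ _ _ _ _ hq _ hf => hodge_of_fam hq hf

end Pool.Agent.Results.MP_c0b458_ag.ProductsWithSmallDegree
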