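import Pool.Agent.J4H47.SG.Law

/-!
# The zero–one-half law for the numerical Hodge standard conjecture

Let `X` be a smooth projective variety and `D` a divisor with `deg D ^ dim X > 0`, which satisfy hard
Lefschetz and the Lefschetz standard conjecture (for example an abelian variety with a polarization,
in any characteristic), and let `b` be the total Betti number of `X`. On the even power
`X ^ (2 n + 2)` with the polarization `∑ D_i` consider the forms
`⟨z, w⟩ = (-1) ^ j deg (z · (∑ D_i) ^ (d - 2 j) · w)` on the primitive classes of codimension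
`j ≤ d / 2 = (n + 1) dim X` modulo numerical equivalence. Let `P n` and `N n` be the numbers of their
positive and of their negative squares, all codimensions together.

1. The sum `P n + N n` is the rank of the group of cycles of the middle codimension of `X ^ (2 n + 2)`
   modulo numerical equivalence; it is at least `b ^ (2 n + 2) / (n + 2) ^ (b ^ 2)`.

2. (The law.) *Either the numerical Hodge standard conjecture holds for all powers of `X`, and all
   `N n` vanish, or `N n / (P n + N n)` converges to `1 / 2`.* So all powers of an abelian variety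
   satisfy the conjecture as soon as the proportion of the negative squares does not converge to
   `1 / 2`.

3. (Effective form.) If the conjecture fails for `X ^ (κ + 1)` or for `X ^ (2 κ + 2)`, then for every
   `n`, with `q = ⌊(n + 1) / (κ + 1)⌋`,
   `|N n / (P n + N n) - 1 / 2| ≤ (n + 2) ^ (b ^ 2) / 2 * (1 - 2 / b ^ (κ + 1)) ^ q`,
   and for every `c ≤ (n + 1) dim X` the difference of the numbers of the positive and of the
   negative squares in the codimensions at most `c` has absolute value at most
   `(b ^ (κ + 1) - 2) ^ q * b ^ ((n + 1) mod (κ + 1)) * b ^ (n + 1)`.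
   Conversely: if one `n` violates one of these inequalities, the conjecture is true for
   `X ^ (κ + 1)` and for `X ^ (2 κ + 2)`.

The idea of the proof. Let `R` be the algebra of the real linear combinations of algebraic
correspondences of degree zero on `V = X ^ (κ + 1)`, with the involution `u ↦ u'` given by the
Lefschetz forms; the form above on the middle codimension of `V × V` is the trace of `u' u`. If it
takes a negative value, then the structure of real algebras with involution gives `h = h' = h ^ 2` of
rank at least `2` and `j = h j = j h` with `j' j = - h`: the operator `j` changes the sign of the form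
on the image of `h`. Operators of this kind on two varieties give one on the product, with kernel
generated by the product of the two kernels: `J = j ⊗ 1 + (1 - h) ⊗ J₁`. So `X ^ (n + 1)` has a
correspondence which changes the sign of the form, up to a correspondence of rank at most
`(b ^ (κ + 1) - 2) ^ q * b ^ ((n + 1) mod (κ + 1))`, and left multiplication by it on the
correspondences of every degree shows that positive and negative squares are nearly equally many.
-/

open CategoryTheory AlgebraicGeometry Filter Topology

universe u v

namespace Pool.Agent.Results.MP_c0b458_ag.SignatureLaw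

open Pool.Agent.H914 Pool.Agent.H914.VarClass Pool.Agent.H914.VarClass.Obj
  Pool.Agent.W534 Pool.Agent.Y163 Pool.Agent.J4H47.SG

/-- The numerical Hodge standard conjecture for the powers `X ^ (κ + 1)` and `X ^ (2 κ + 2)` with the
sums of the inverse images of the divisor `D`. -/
def HodgeOnPowers {k : Type u} [Field k] {𝒱 : VarClass k} (ops : CycleOps 𝒱) {X : 𝒱.Obj}
    (D : X.Cycles) (κ : ℕ) : Prop :=
  NumHodge ops (pw X κ) (pwD ops D κ) ∧ NumHodge ops (sq X κ) (sqD ops D κ)

/-- **The zero–one-half law for the numerical Hodge standard conjecture.** -/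
theorem result {k : Type u} [Field k] {𝒱 : VarClass k} {ops : CycleOps 𝒱}
    (W : WeilCohomology.{u, v} ops) (X : 𝒱.Obj) (D : X.Cycles) (hD : X.IsCyc 1 D)
    (hdeg : 0 < X.V.degCycle (divPow ops D X.dim X.V.fundCycle))
    (hHL : HardLefschetz W X D) (hB : LefschetzB W X D) (b : ℕ)
    (hb : b = Module.finrank W.K (W.H X)) (P N : ℕ → ℕ)
    (hP : ∀ n, P n = sqs ops D 1 n ((n + 1) * X.dim))
    (hN : ∀ n, N n = sqs ops D (-1) n ((n + 1) * X.dim)) :
    -- the numbers of squares are well defined
    (∀ n j, j ≤ (n + 1) * X.dim → BddAbove {r | NumFamily ops (sq X n) (sqD ops D n) j 1 r} ∧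
      BddAbove {r | NumFamily ops (sq X n) (sqD ops D n) j (-1) r}) ∧
    -- the total number of squares
    (∀ n, P n + N n = numRank ops (sq X n) ((n + 1) * X.dim) ∧
      (b ^ 2) ^ (n + 1) ≤ (P n + N n) * (n + 2) ^ (b ^ 2)) ∧
    -- the effective law
    (∀ κ, ¬ HodgeOnPowers ops D κ → ∀ n,
      (∀ c ≤ (n + 1) * X.dim, |(sqs ops D 1 n c : ℤ) - sqs ops D (-1) n c| ≤
        (b ^ (κ + 1) - 2 : ℤ) ^ ((n + 1) / (κ + 1)) * b ^ ((n + 1) % (κ + 1)) * b ^ (n + 1)) ∧
      |(N n : ℝ) / (P n + N n) - 1 / 2| ≤
        (n + 2) ^ (b ^ 2) / 2 * (1 - 2 / b ^ (κ + 1)) ^ ((n + 1) / (κ + 1))) ∧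
    -- the zero–one-half law
    ((∀ n, HodgeOnPowers ops D n ∧ ∀ c ≤ (n + 1) * X.dim, sqs ops D (-1) n c = 0) ∨
      Tendsto (fun n => (N n : ℝ) / (P n + N n)) atTop (𝓝 (1 / 2))) := by
  obtain ⟨h1, h2, h3, h4⟩ := signature_law W X D hD hdeg hHL hB b hb P N hP hN
  refine ⟨h1, h2, h3, ?_⟩
  rcases h4 with h4 | h4
  · exact Or.inl fun n => ⟨⟨(h4 n).1, (h4 n).2.1⟩, (h4 n).2.2⟩
  · exact Or.inr h4

end Pool.Agent.Results.MP_c0b458_ag.SignatureLaw
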